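import Pool.Agent.H91.CY.Pres

/-!
# Adjoining elements whose commutators with given elements have given finite orders

`C` is any class of groups with the closure properties `ClosedE C` (`Pool.Agent.Y110.FJ.Stm`): it contains
`ℤ` and is closed under groups that embed, finite products, free products, overgroups of finite index,
directed colimits, and it satisfies the extension criterion (if `G` maps onto a group `Q` in `C` and the
preimages of the virtually cyclic subgroups of `Q` are in `C`, then `G` is in `C`). We suppose that `C`
contains the Coxeter groups of finite rank. All this is known for the class of the groups that satisfy the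
Farrell–Jones conjecture for `A`-theory with coefficients and finite wreath products (Enkelmann, Lück,
Pieper, Ullmann and Winges; Coxeter groups of finite rank are CAT(0) groups).

Let `Q` be a group and `V` a set of letters with ranks `rk v` in a partially ordered set. The group `TG S`
is generated by `Q` and the letters, with a set `S` of relators of two kinds (`IsTor`):

* `(w v w⁻¹ z⁻¹) ^ m`,
* `v ^ m`,

where `m` is a natural number, `v` and `z` are letters of the same rank, and `w` is any element of the
subgroup which is generated by `Q` and the letters of rank larger than the rank of `v` (`High`). For `m = 1`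
a relator of the first kind is the relation `w v w⁻¹ = z`, and in general it says that `w v w⁻¹` and `z` are
equal up to an element whose order divides `m`. For `v = z` it says that `[w, v] ^ m = 1`.

**Theorem.** (2) The group `Q` embeds in `TG S`, and `TG S` is in `C` if and only if `Q` is. For `Q = 1` all
these groups are in `C`.

(1) Let `Q` be a group, let `T` be any set of triples `(v, q, m)`, `v ∈ V`, `q ∈ Q`, `m ∈ ℕ`, and `D` any set of
pairs `(v, n)`. Adjoin to `Q` elements `v ∈ V` with the relations `[v, q] ^ m = 1` for `(v, q, m)` in `T` and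
`v ^ n = 1` for `(v, n)` in `D`. The resulting group contains `Q`, and it is in `C` if and only if `Q` is.

The letters may have infinite order. For `m = 1` the relations in (1) say that `v` commutes with a subgroup of
`Q`, and the group is an iterated extension of centralizers, or an amalgamated product. For `m > 1` no
splitting of the group is known to us.

Outline of the proof. First let all letters have the same rank, and let `K` be the group that is presented.
It has an automorphism `θ` of order two which inverts the letters and is the identity on `Q`. Let `X` be the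
subset of `K` which consists of `1` and of the conjugates of the letters by the elements of `Q`, so that
`θ x = x⁻¹` for `x` in `X`. Let `W` be the Coxeter group with a generator `r_x` for each `x` in `X` and the
relations `(r_x r_y) ^ m = 1`, where `m` is the order of `x⁻¹ y` in `K`. The group `Q` acts on `X` and on
`W`, and there is a homomorphism from `K` to the semidirect product of `W` and `Q` which maps the letter `v` to
`r_1 r_v`: it maps the kernel of `K → Q` to the group of the even elements of `W`. On the other hand, in
the semidirect product of `K` and `⟨θ⟩` the elements `θ x` are involutions, and `θ x θ y = x⁻¹ y`; so there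
is a homomorphism from the semidirect product of `W` and `Q` to this group with `r_x ↦ θ x`. The
composition is the inclusion of `K`, hence `K` is a subgroup of the semidirect product of `W` and `Q`, which is
in `C` by the theorem on extensions by Coxeter groups (`CoxeterKernels` of the library). If there are
finitely many ranks then one can argue by induction, with the group without the letters of small rank in the
role of `Q`; it is a retract. In general the group is a directed colimit of groups with finitely many
relators from `S`, which involve finitely many ranks, and these can be replaced by natural numbers.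

The case of involutions is `CoxeterPresentations` (for `MP_490288_al`).
-/

set_option autoImplicit false

namespace Pool.Agent.Results.MP_2a547c_gt.CommutatorsOfFiniteOrder

open Monoid
open Pool.Agent.Y110.FJ (ClosedE)
open Pool.Agent.H91.CY
open Pool.Agent.H91.CP (lt High)

/-- the relators `(v q v⁻¹ q⁻¹) ^ m` for the triples `(v, q, m)` in `T`, and `v ^ n` for the pairs
`(v, n)` in `D` -/
def commRel {Q : Type} [Group Q] {V : Type} (T : Set (V × Q × ℕ)) (D : Set (V × ℕ)) :
    Set (Coprod Q (FreeGroup V)) :=
  {x | ∃ t ∈ T, x = (Coprod.inr (FreeGroup.of t.1) * Coprod.inl t.2.1 *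
      (Coprod.inr (FreeGroup.of t.1))⁻¹ * (Coprod.inl t.2.1)⁻¹) ^ t.2.2} ∪
    {x | ∃ d ∈ D, x = Coprod.inr (FreeGroup.of d.1) ^ d.2}

/-- the group generated by `Q` and elements `v ∈ V` with the relations `[v, q] ^ m = 1` for
`(v, q, m)` in `T` and `v ^ n = 1` for `(v, n)` in `D` -/
abbrev CommGroup {Q : Type} [Group Q] {V : Type} (T : Set (V × Q × ℕ)) (D : Set (V × ℕ)) : Type :=
  Coprod Q (FreeGroup V) ⧸ Subgroup.normalClosure (commRel T D)

section proofs

variable {Q : Type} [Group Q] {V : Type}

/-- the relators in the standard form -/
def tcox (T : Set (V × Q × ℕ)) (D : Set (V × ℕ)) : Set (Coprod Q (FreeGroup V)) :=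
  {x | ∃ t ∈ T, x = (Coprod.inl t.2.1 * lt Q t.1 * (Coprod.inl t.2.1)⁻¹ * (lt Q t.1)⁻¹) ^ t.2.2} ∪
    {x | ∃ d ∈ D, x = lt Q d.1 ^ d.2}

theorem tcox_isTor (T : Set (V × Q × ℕ)) (D : Set (V × ℕ)) :
    ∀ x ∈ tcox T D, IsTor (fun _ : V => ()) x := by
  rintro x (⟨t, -, rfl⟩ | ⟨d, -, rfl⟩)
  · exact ⟨Coprod.inl t.2.1, t.1, t.1, t.2.2, Subgroup.subset_closure (Or.inl ⟨_, rfl⟩), rfl,
      Or.inl rfl⟩
  · exact ⟨1, d.1, d.1, d.2, one_mem _, rfl, Or.inr rfl⟩

/-- `[s, q] ^ m` is the inverse of `[q, s] ^ m` -/
theorem comm_inv {G : Type*} [Group G] (s q : G) (m : ℕ) :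
    (s * q * s⁻¹ * q⁻¹) ^ m = ((q * s * q⁻¹ * s⁻¹) ^ m)⁻¹ := by
  have h2 : s * q * s⁻¹ * q⁻¹ = (q * s * q⁻¹ * s⁻¹)⁻¹ := by group
  rw [h2, inv_pow]

theorem comm_ncl (T : Set (V × Q × ℕ)) (D : Set (V × ℕ)) :
    Subgroup.normalClosure (tcox T D) = Subgroup.normalClosure (commRel T D) := by
  apply le_antisymm
  · refine Subgroup.normalClosure_le_normal ?_
    rintro x (⟨t, ht, rfl⟩ | ⟨d, hd, rfl⟩)
    · have h2 : (lt Q t.1 * Coprod.inl t.2.1 * (lt Q t.1)⁻¹ * (Coprod.inl t.2.1)⁻¹) ^ t.2.2 ∈
          Subgroup.normalClosure (commRel T D) :=
        Subgroup.subset_normalClosure (Or.inl ⟨t, ht, rfl⟩)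
      rw [comm_inv] at h2
      exact inv_mem_iff.1 h2
    · exact Subgroup.subset_normalClosure (Or.inr ⟨d, hd, rfl⟩)
  · refine Subgroup.normalClosure_le_normal ?_
    rintro x (⟨t, ht, rfl⟩ | ⟨d, hd, rfl⟩)
    · have h2 : (Coprod.inl t.2.1 * lt Q t.1 * (Coprod.inl t.2.1)⁻¹ * (lt Q t.1)⁻¹) ^ t.2.2 ∈
          Subgroup.normalClosure (tcox T D) :=
        Subgroup.subset_normalClosure (Or.inl ⟨t, ht, rfl⟩)
      rw [comm_inv] at h2
      exact inv_mem_iff.1 h2
    · exact Subgroup.subset_normalClosure (Or.inr ⟨d, hd, rfl⟩)

end proofs

/-- Let `C` be a class of groups with the closure properties `ClosedE C` which contains the Coxeter groups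
of finite rank.

1. Let `Q` be a group, and let `S` be a set of relators of the forms `(w v w⁻¹ z⁻¹) ^ m` and `v ^ m`, `v`
and `z` letters of the same rank and `w` in the subgroup generated by `Q` and the letters of larger rank.
The group `TG S` generated by `Q` and the letters with the relators `S` contains `Q`, and it is in
`C` if and only if `Q` is.
2. The group generated by `Q` and elements `v` with any set of relations `[v, q] ^ m = 1`, `q ∈ Q`, and
`v ^ n = 1` contains `Q`, and it is in `C` if and only if `Q` is. -/
theorem result (C : ∀ (G : Type) [Group G], Prop) (hC : ClosedE C)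
    (hcox : ∀ (A : Type) (_ : Finite A) (M : CoxeterMatrix A), C M.Group) :
    -- (1)
    (∀ (Q : Type) [Group Q] (V : Type) (T : Set (V × Q × ℕ)) (D : Set (V × ℕ)),
      Function.Injective (fun q : Q =>
        ((Coprod.inl q : Coprod Q (FreeGroup V)) : CommGroup T D)) ∧
      (C (CommGroup T D) ↔ C Q)) ∧
    -- (2)
    (∀ (Q : Type) [Group Q] (V P : Type) [PartialOrder P] (rk : V → P)
      (S : Set (Coprod Q (FreeGroup V))), (∀ x ∈ S, IsTor rk x) →
      Function.Injective (fun q : Q => ((Coprod.inl q : Coprod Q (FreeGroup V)) : TG S)) ∧
      (C (TG S) ↔ C Q)) := by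
  refine ⟨fun Q _ V T D => ?_, fun Q _ V P _ rk S hS => ⟨inQ_injective hS, tg_iff hC hcox hS⟩⟩
  have e := comm_ncl T D
  have h1 := inQ_injective (tcox_isTor T D)
  have h2 := tg_iff hC hcox (tcox_isTor T D)
  refine ⟨fun a b hab => h1 ?_, ?_⟩
  · have h3 := (QuotientGroup.eq (s := Subgroup.normalClosure (commRel T D))).1 hab
    exact (QuotientGroup.eq (s := Subgroup.normalClosure (tcox T D))).2 (by
      rw [e]
      exact h3)
  · refine Iff.trans ?_ h2
    exact ⟨fun h => hC.base.of_injective _ _ (QuotientGroup.quotientMulEquivOfEq e).toMonoidHom
        (QuotientGroup.quotientMulEquivOfEq e).injective h,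
      fun h => hC.base.of_injective _ _
        (QuotientGroup.quotientMulEquivOfEq e.symm).toMonoidHom
        (QuotientGroup.quotientMulEquivOfEq e.symm).injective h⟩

end Pool.Agent.Results.MP_2a547c_gt.CommutatorsOfFiniteOrder
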