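import Pool.Agent.H6.GB.Main

/-!
# Extensions by groups that act on trees with commensurable virtually polycyclic stabilizers

`C` is any class of groups with the closure properties `ClosedE C` which contains the metabelian groups
(`Met C`), the groups `F ⋊ ℤ` for all free groups `F` and all automorphisms of `F` (`FbC C`) and the
groups `GL_m(ℚ)`.  All this is published for the class of the groups which satisfy the Full
Farrell–Jones Conjecture.

**Theorem.**  Let `N` be a normal subgroup of a group `G` with `G ⧸ N` in `C`.  Suppose that `N` acts on
a tree without inversions such that the stabilizers of adjacent vertices are commensurable, the orders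
of the finite subgroups of the vertex stabilizers are bounded, and one vertex stabilizer is virtually
polycyclic (has a torsion-free solvable subgroup `P` of finite index all of whose subgroups are finitely
generated).  Then `G` is in `C`.

All hypotheses are on the abstract group `N`; nothing is assumed on the action of `G` on `N`: `G` need not
act on the tree, and it is not assumed that `G` preserves the commensurability class of the vertex
stabilizers.  The group `N` need not be finitely generated.  If `N` has finitely many orbits of vertices,
the orders of the finite subgroups are bounded.

So `C` is closed under extensions with kernels `N` that are generalized Baumslag–Solitar groups with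
virtually polycyclic vertex groups, for instance the Leary–Minasyan groups, with arbitrary (also
nonsolvable) modular homomorphism.  For instance all groups `N ⋊ ℤ` are in `C`.

In the library, `CommensuratedKernels` (for `MP_551055_al`) and `FiniteRankTreeKernels` (for
`MP_8a3537_gt`) have the additional hypothesis that `g N_v g⁻¹` and `N_v` are commensurable for all `g`
in `G`, `CommensurableStabilizersOnTrees` (for `MP_490288_al`) that `G` acts on the tree,
and `BaumslagSolitarKernels` (for `MP_d19827_al`) is about abelian vertex stabilizers with
solvable modular homomorphism.

Outline of the proof.  The new part is that either all groups `g P g⁻¹` (`g` in `G`) are commensurable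
with `P`, or `N` preserves a line of the tree.

* The group `B = g P g⁻¹` is a polycyclic subgroup of `N` which is commensurated by `N`.  By induction
  along a series of `B` with cyclic factors, `B` fixes a vertex, or it preserves a line and contains a
  translation `c` of this line.  (Let `H` be normalized by `b`.  If `H` fixes a vertex and `b` has no fixed
  vertex, then `H` fixes the axis of `b`; if `b` has a fixed vertex, so has `⟨H, b⟩`, by projection to the
  tree of the fixed vertices of `H`.  If `H` preserves the axis of a translation `c` in `H`, then this is
  the only line on which `b c b⁻¹` is a translation, because `b c b⁻¹` has no fixed vertex.)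
* In the second case, for `n` in `N` some element `n c ^ k n⁻¹` with `k > 0` is in `B`; it is a translation
  of the lines `L` and `n L`, so `n L = L`.
* So if `N` preserves no line, then `B` fixes a vertex `v`, so that `B ∩ P` has finite index in `B`. This
  holds for `g` and `g⁻¹`, so `P` is commensurated by `G`.  The library theorem on the representation of the
  commensurator of a polycyclic group (`Pool.Agent.N77.CP.ind`) and the theorem
  `CommensurableTreeKernels` (for `MP_9d1ffa_al`) imply that `G` is in `C`.
* If `N` preserves a line, its second commutator subgroup `N''` fixes a vertex, so it is virtually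
  polycyclic, `G ⧸ N''` is in `C`, and the theorem on virtually solvable kernels applies
  (`Pool.Agent.H6.VF.main`).
-/

set_option autoImplicit false

namespace Pool.Agent.Results.MP_2a547c_gt.PolycyclicTreeKernels

open Pool.Agent.Y110.FJ (ClosedE)
open Pool.Agent.R684.FP (FbC)
open Pool.Agent.T2H35.FJT (Met)
open MulAction (stabilizer)

theorem result (C : ∀ (G : Type) [Group G], Prop) (hC : ClosedE C) (hmet : Met C) (hF : FbC C)
    (hGL : ∀ n : ℕ, C (Matrix.GeneralLinearGroup (Fin n) ℚ))
    (G : Type) [Group G] (N : Subgroup G) [N.Normal] (hN : C (G ⧸ N))
    (V : Type) [MulAction N V] (T : SimpleGraph V) (hT : T.IsTree)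
    (hadj : ∀ (x : N) (u v : V), T.Adj u v → T.Adj (x • u) (x • v))
    (hinv : ∀ (x : N) (u v : V), T.Adj u v → ¬ (x • u = v ∧ x • v = u))
    (hcom : ∀ u v : V, T.Adj u v → (stabilizer N u).relIndex (stabilizer N v) ≠ 0)
    (m : ℕ) (hm : ∀ (v : V) (F : Subgroup N), F ≤ stabilizer N v → Finite F → Nat.card F ≤ m)
    (o : V) (P : Subgroup N) (hPo : P ≤ stabilizer N o) (hPi : P.relIndex (stabilizer N o) ≠ 0)
    (hsol : Group.IsSolvable P) (hfg : ∀ H : Subgroup P, H.FG)
    (htf : ∀ (x : P) (n : ℕ), 0 < n → x ^ n = 1 → x = 1) : C G :=
  Pool.Agent.H6.GB.main hC hmet hF hGL N hN T hT hadj hinv hcom m hm o P hPo hPi hsol hfg htf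

end Pool.Agent.Results.MP_2a547c_gt.PolycyclicTreeKernels
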