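import Pool.Agent.H6.NT.Intr

/-!
# Extensions by groups that act on trees with commensurable solvable stabilizers

A normal subgroup `N` of `G` acts on a tree without inversions, such that the stabilizers of adjacent
vertices are commensurable; `G` need not act on the tree, and nothing is assumed on the action of `G` on
`N`.  For example `N` is the fundamental group of a graph of groups whose edge groups have finite index
in the vertex groups.

**Theorem A (rigidity).**  Suppose that all vertex stabilizers `N_v` are solvable of derived length at
most `d`.  Then `N` is solvable of derived length at most `d + 2`, or the action is rigid: for all `g` in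
`G` and all vertices `v`, `w` the group `g N_v g⁻¹` fixes a vertex and is commensurable with `N_w`.
(With `G = N ⋊ Aut(N)`: unless `N` is solvable, the automorphisms of `N` preserve the set of the elliptic
elements and the commensurability class of the vertex stabilizers.)

Let `C` be a class of groups with the closure properties `ClosedE C` which contains the metabelian groups
and the groups `F ⋊ ℤ` for all free groups `F` and all automorphisms of `F` (`FbC C`).  All this is known
for the class of the groups which satisfy the A-theoretic Farrell–Jones conjecture with coefficients and
finite wreath products.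

**Theorem B.**  Let `G ⧸ N` be in `C`.  Then `G` is in `C` in each of the following cases.

1. The stabilizers `N_v` have series `1 = A 0 v ≤ A 1 v ≤ ... ≤ A m v = N_v` with abelian factors, which
   are intrinsic (`Intrinsic`): every isomorphism between subgroups of finite index `P ≤ N_v` and
   `Q ≤ N_w` maps the elements of `A i v` to elements of `A i w`.
2. The groups `N_v` are torsion-free and nilpotent of class at most `c`.
3. The groups `N_v` are torsion-free and solvable of derived length at most `d` and satisfy `EC`: they
   are virtually polycyclic (and `C` contains the groups `GL_m(ℚ)`), or the subgroups of `G` which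
   commensurate `N_v` have homomorphisms to groups in `C` such that the elements of the kernels
   centralize subgroups of finite index of `N_v` (for instance, the abstract commensurator of `N_v` is in
   `C`).

Examples for 1: all `N_v` are abelian, possibly with torsion and of infinite rank (`m = 1`); or all `N_v`
are wreath products `A ≀ ℤᵏ` with `A ≠ 1` abelian, such as lamplighter groups (the base group is intrinsic:
the union of the abelian normal subgroups of a subgroup of finite index is its intersection with the
base), or Baumslag–Solitar groups `BS(1, n)`, `|n| ≥ 2`.  In 1 and 2 the groups `N_v` and `N` need not be finitely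
generated or countable.

In the library, `CommensuratedKernels` (for `MP_551055_al`), `KernelsOnTrees` (for `MP_28303a_al`) and
`FiniteRankTreeKernels` (for `MP_8a3537_gt`) assume in addition that conjugation with the elements of
`G` preserves the commensurability class of the vertex stabilizers or maps the elements of the series to
such elements; `PolycyclicTreeKernels` (for this problem) is about virtually polycyclic stabilizers, where
no ends have to be considered.

Outline of the proof.  Let `B = g N_v g⁻¹`, a subgroup of `N` which is commensurated by `N`.

* Going up the derived series of `B` one sees that `B` fixes a vertex, or it contains a translation of a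
  line which it preserves, or some term `H` of its derived series is locally elliptic (all finite subsets
  fix a vertex) but fixes no vertex.
* In the second case `N` preserves the line.
* In the third case the fixed subtrees of the finite subsets of `H` define a ray `f`, and each element of
  `H` fixes a tail of `f`.  The same is true for `n H n⁻¹` and `n f` if `n` is in `N`.  The elements of `B`
  normalize `H`, so they fix the end of `f`, and the elements of `n B n⁻¹` fix the end of `n f`.  So the
  elements of the subgroup `H ∩ n B n⁻¹` of finite index of `H` are elliptic and fix the ends of `f` and of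
  `n f`, hence tails of both rays.  If `f` and `n f` had different ends, a vertex which separates the tails
  would be fixed by `H ∩ n B n⁻¹`, and `H`, being locally elliptic, would fix a vertex.  So `N` fixes the end
  of `f`.
* If `N` preserves a line or fixes an end, then `N` is solvable: its commutator subgroup (or the second
  one) is a directed union of subgroups of vertex stabilizers.

So either `N` is solvable, and the theorem on solvable kernels applies, or each `B` fixes a vertex and is
commensurable with the vertex stabilizers, and the series are compatible with conjugation by the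
elements of `G`; then the theorems of the library on compatible series apply.
-/

set_option autoImplicit false

namespace Pool.Agent.Results.MP_2a547c_gt.SolvableTreeKernels

open Pool.Agent.Y110.FJ (ClosedE)
open Pool.Agent.R684.FP (FbC)
open Pool.Agent.N508.CS (EC Sv)
open Pool.Agent.H6.GB (Intrinsic)
open MulAction (stabilizer)

/-- `N` acts on the tree `T` without inversions, with commensurable stabilizers of adjacent vertices -/
structure CommensurableAction (N V : Type) [Group N] [MulAction N V] (T : SimpleGraph V) : Prop where
  tree : T.IsTree
  adj : ∀ (x : N) (u v : V), T.Adj u v → T.Adj (x • u) (x • v)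
  inv : ∀ (x : N) (u v : V), T.Adj u v → ¬ (x • u = v ∧ x • v = u)
  com : ∀ u v : V, T.Adj u v → (stabilizer N u).relIndex (stabilizer N v) ≠ 0

/-- the subgroup `g P g⁻¹` of the normal subgroup `N` -/
def conj {G : Type} [Group G] {N : Subgroup G} [N.Normal] (g : G) (P : Subgroup N) : Subgroup N :=
  P.map (MulAut.conjNormal g).toMonoidHom

theorem result :
    -- Theorem A
    (∀ (G V : Type) [Group G] (N : Subgroup G) [N.Normal] [MulAction N V] (T : SimpleGraph V)
      (_ : CommensurableAction N V T) (d : ℕ) (_ : ∀ v : V, derivedSeries ↥(stabilizer N v) d = ⊥),
      derivedSeries N (d + 2) = ⊥ ∨ ∀ (g : G) (v : V),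
        (∃ w : V, conj g (stabilizer N v) ≤ stabilizer N w) ∧
        ∀ w : V, (conj g (stabilizer N v)).relIndex (stabilizer N w) ≠ 0 ∧
          (stabilizer N w).relIndex (conj g (stabilizer N v)) ≠ 0) ∧
    -- Theorem B
    ∀ (C : ∀ (G : Type) [Group G], Prop) (_ : ClosedE C)
      (_ : ∀ (G : Type) [Group G], derivedSeries G 2 = ⊥ → C G) (_ : FbC C)
      (G V : Type) [Group G] (N : Subgroup G) [N.Normal] (_ : C (G ⧸ N)) [MulAction N V]
      (T : SimpleGraph V) (_ : CommensurableAction N V T),
      (∀ (m : ℕ) (A : ℕ → V → Subgroup N), Intrinsic m N A → C G) ∧
      ((∀ (v : V) (x : N), x • v = v → IsOfFinOrder x → x = 1) →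
        (∀ c : ℕ, (∀ v : V, Subgroup.upperCentralSeries ↥(stabilizer N v) c = ⊤) → C G) ∧
        (∀ d : ℕ, (∀ v : V, derivedSeries ↥(stabilizer N v) d = ⊥) →
          (∀ v : V, EC C (Sv N v)) → C G)) := by
  have hds : ∀ {G : Type} [Group G] (K : Subgroup G) (d : ℕ), derivedSeries ↥K d = ⊥ →
      Pool.Agent.H6.VF.Ds K d = ⊥ := by
    intro G _ K d h
    rw [Pool.Agent.H6.VF.Ds_eq, h, Subgroup.map_bot]
  refine ⟨?_, ?_⟩
  · intro G V _ N _ _ T h d hd
    rcases Pool.Agent.H6.GB.rigid N T h.tree h.adj h.inv h.com d (fun v => hds _ d (hd v)) with
      h1 | h1
    · left
      rw [Pool.Agent.H6.VF.Ds_eq, Subgroup.map_eq_bot_iff_of_injective _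
        (⊤ : Subgroup ↥N).subtype_injective] at h1
      have h2 : (derivedSeries ↥(⊤ : Subgroup ↥N) (2 + d)).map
          (Subgroup.topEquiv : ↥(⊤ : Subgroup ↥N) ≃* ↥N).toMonoidHom = derivedSeries ↥N (2 + d) :=
        map_derivedSeries_eq (f := (Subgroup.topEquiv : ↥(⊤ : Subgroup ↥N) ≃* ↥N).toMonoidHom)
          (Subgroup.topEquiv : ↥(⊤ : Subgroup ↥N) ≃* ↥N).surjective (2 + d)
      rw [add_comm d 2, ← h2, h1, Subgroup.map_bot]
    · right
      intro g v
      have h2 := Pool.Agent.H6.GB.relIndex_conj_ne N T h.tree h.com h1
      refine ⟨h1 g v, fun w => ⟨h2 g v w, ?_⟩⟩
      obtain ⟨u, hu⟩ := h1 g v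
      intro h0
      exact Pool.Agent.N24.CM.commensurable h.tree.1 (fun x => stabilizer ↥N x) h.com w u
        (Subgroup.relIndex_eq_zero_of_le_right hu h0)
  · intro C hC hM hF G V _ N _ hQ _ T h
    refine ⟨fun m A hA => Pool.Agent.H6.GB.intr_main hC hM hF N hQ T h.tree h.adj h.inv h.com m A hA,
      fun htf => ⟨fun c hc => Pool.Agent.H6.GB.nil_main hC hM hF N hQ T h.tree h.adj h.inv h.com
        htf c hc, fun d hd hE => Pool.Agent.H6.GB.ec_main hC hM hF N hQ T h.tree h.adj h.inv h.com
        htf d (fun v => hds _ d (hd v)) hE⟩⟩

end Pool.Agent.Results.MP_2a547c_gt.SolvableTreeKernels
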