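import Pool.Agent.H53.BR.FJ
import Pool.Agent.H53.IL.FCor

/-!
# Virtual braid groups, virtual Artin groups, and the Farrell–Jones conjecture for A-theory

`C` is any class of groups with the closure properties `ClosedE C` (subgroups, finite products, free
products, overgroups of finite index, directed colimits, and the extension criterion: `G` is in `C` if
`G → Q` is onto, `Q` is in `C` and the preimages of the virtually cyclic subgroups of `Q` are in `C`)
which contains the Coxeter groups of finite rank. Enkelmann, Lück, Pieper, Ullmann and Winges proved
these closure properties for the class of the groups which satisfy the Farrell–Jones conjecture for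
A-theory with coefficients and finite wreath products, and that it contains the CAT(0)-groups, for
instance the Coxeter groups of finite rank, and the fundamental groups of the manifolds of dimension
three, for instance the groups `Tor n b`: the semidirect product of the free group with the infinite
cyclic group, which acts by the braid `b` on `n + 1` strands, is the group of the link which consists of
the closed braid and its axis. Here `Bn n` is the braid group on `n + 1` strands, and `rho n` is
Artin's action on the free group: `σ i` maps `x i` to `x (i+1)` and `x (i+1)` to
`x (i+1)⁻¹ x i x (i+1)`.

`VirtualArtin M` is the virtual Artin group of the Coxeter matrix `M` (the entry `0` stands for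
infinity), defined by Bellingeri, Paris and Thiel: it has generators `σ i` and `τ i`, the `σ i` satisfy
the relations of the Artin group, the `τ i` those of the Coxeter group, and, for `i ≠ j` with
`m = M i j ≠ 0`, `v σ k = σ i v`, where `v = ⋯ τ j τ i` is the alternating product
`alt (τ j) (τ i) (m - 1) = τ j τ i τ j ⋯` with `m - 1` factors, and `k = i` for even `m`, `k = j` for odd
`m`. For `M = CoxeterMatrix.A n` it is the virtual braid group on `n + 1` strands.

A `Block` of `M` is a set `X` of generators without the label infinity whose Coxeter graph is connected;
`sub M X` is the Coxeter matrix of `X`.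

The Coxeter matrices:
- `CoxeterMatrix.A n`, `CoxeterMatrix.B n` are those of types `A_n` and `B_n`, `typeD n` that of type
  `D_n`, `n ≥ 4`: the path `0, …, n - 2`, with the vertex `n - 1` joined to `n - 3`;
- `cyc n`, `n ≥ 3`, is the cycle of length `n`, type affine `A_{n-1}`;
- `cla n a b` is the path `0, …, n`, with a second copy of the vertex `0` if `a = true`, of the vertex
  `n` if `b = true` (the copies have the same neighbours, and the label `2` with each other); the labels
  of the edges are `3`, but `4` at the end `0` if `a = false`, and at the end `n` if `b = false`. This
  is type affine `C_n` for `a = b = false`, `n ≥ 2`; affine `B_{n+1}` for `a ≠ b` (for `n = 1` this is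
  affine `C_2 = B_2`); affine `D_{n+2}` for `a = b = true` (for `n = 1` this is the cycle `cyc 4`).

Outline of the proof. By a lemma of Deodhar, and of Brink and Howlett, the virtual Artin group is the
semidirect product of an Artin group, whose generators are the roots, and the Coxeter group, which
permutes them; only finite irreducible sets of roots without the label infinity matter. If the label of
`s` and `t` is infinite, the Coxeter group is an amalgamated product of the parabolic subgroups of the
complements of `s` and of `t`, and acts on a tree. Two roots in such a set lie in a common conjugate of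
one of the two parabolic subgroups; by the Helly property of the tree all the roots of the set do. So
the set is, up to the Coxeter group, a set of roots of a block. In the classical types the Coxeter group
permutes the coordinates up to sign, and the sets are parts of a cycle or of a diagram `cla n a b`, which
is found by following the path of the coordinates. In rank two with a label `m ≥ 4` there are no three
such roots, because their Gram matrix would be regular. The Artin groups of types `B` and affine `A`
embed in the semidirect product of the free group and the braid group; the braid group on `n + 1`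
strands embeds in the wreath product of this semidirect product, for `n` strands, with the symmetric
group; so they are in `C`, if the groups `Tor n b` are.
-/

set_option autoImplicit false

namespace Pool.Agent.Results.MP_2a547c_gt.VirtualArtinGroups

open Pool.Agent.Y110.FJ Pool.Agent.Helper741 Pool.Agent.TH107 Pool.Agent.H53.VA Pool.Agent.H53.CL
open Pool.Agent.H53.IL Pool.Agent.H53.BR Pool.Agent.H53.BR.FJ

/-- Let `C` be a class of groups with the closure properties `ClosedE C` which contains the Coxeter
groups of finite rank.

1. Let `C` contain the groups `Tor n b` of the braids with their axes. Then the virtual braid groups are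
in `C`. If each block of `M`, of finite rank, is contained in a set of generators of type `A`, `B` or
affine `A`, or with at most two elements, then the virtual Artin group of `M` is in `C`. In particular,
this holds if `M` is locally reducible.
2. Let `M` be a Coxeter matrix of finite rank.
 a. If `M` is locally reducible and has no label `3`, then the virtual Artin group of `M` is in `C`.
 b. The virtual Artin group of `M` is in `C` if and only if the virtual Artin groups of the blocks of
 `M` are in `C`.
3. The virtual Artin groups of locally reducible type are in `C` if and only if the Artin group of
affine type `A₂` is in `C`.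
4. The virtual Artin groups of the `M` such that each block is contained in a set of generators of type
`A`, `B`, `D` or with two elements are in `C` if and only if the Artin groups of types `B`, affine `A`
and affine `D` are in `C`.
5. The virtual Artin groups of the `M` such that each block is contained in a set of generators of type
`A`, `B`, `D`, affine `A`, affine `B`, affine `C`, affine `D` or with two elements are in `C` if and only
if the Artin groups of types affine `A`, affine `B`, affine `C` and affine `D` are in `C`. -/
theorem result (C : ∀ (G : Type) [Group G], Prop) (hC : ClosedE C)
    (hcox : ∀ (V : Type) [Finite V] (M : CoxeterMatrix V), C M.Group) :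
    ((∀ (n : ℕ) (b : Bn n), C (Tor n b)) →
      (∀ n : ℕ, C (VirtualArtin (CoxeterMatrix.A n))) ∧
      (∀ (V : Type) [Fintype V] (M : CoxeterMatrix V),
        (∀ X : Set V, Block M X → ∃ Y : Set V, X ⊆ Y ∧ Elementary (sub M Y)) →
          C (VirtualArtin M)) ∧
      (∀ (V : Type) [Fintype V] (M : CoxeterMatrix V), LocallyReducible M → C (VirtualArtin M))) ∧
    (∀ (V : Type) [Fintype V] (M : CoxeterMatrix V),
      (LocallyReducible M → (∀ i j, M i j ≠ 3) → C (VirtualArtin M)) ∧
      (C (VirtualArtin M) ↔ ∀ X : Set V, Block M X → C (VirtualArtin (sub M X)))) ∧
    ((∀ (V : Type) [Fintype V] (M : CoxeterMatrix V), LocallyReducible M → C (VirtualArtin M)) ↔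
      C (Artin (cyc 3))) ∧
    ((∀ (V : Type) [Fintype V] (M : CoxeterMatrix V),
      (∀ X : Set V, Block M X → ∃ Y : Set V, X ⊆ Y ∧ SphericalClassical (sub M Y)) →
        C (VirtualArtin M)) ↔
      (∀ n : ℕ, 3 ≤ n → C (Artin (cyc n))) ∧ (∀ n : ℕ, 2 ≤ n → C (Artin (CoxeterMatrix.B n))) ∧
        ∀ n : ℕ, 2 ≤ n → C (Artin (cla n true true))) ∧
    ((∀ (V : Type) [Fintype V] (M : CoxeterMatrix V),
      (∀ X : Set V, Block M X → ∃ Y : Set V, X ⊆ Y ∧
        (SphericalClassical (sub M Y) ∨ AffineClassical (sub M Y))) → C (VirtualArtin M)) ↔
      (∀ n : ℕ, 3 ≤ n → C (Artin (cyc n))) ∧
        ∀ (n : ℕ) (a b : Bool), 1 ≤ n → (a = true ∨ b = true ∨ 2 ≤ n) → C (Artin (cla n a b))) := by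
  refine ⟨fun hT => ?_, fun _ _ M => ⟨fun hL h3 => F.va_locred hC hcox M hL fun i j h =>
    absurd h (h3 i j), F.va_block hC hcox M⟩, F.va_locred_iff hC hcox, F.va_spherical hC hcox,
    F.va_classical hC hcox⟩
  have hcyc : ∀ n : ℕ, 3 ≤ n → C (Artin (cyc n)) := cyc_mem hC hT
  have hB : ∀ n : ℕ, 2 ≤ n → C (Artin (CoxeterMatrix.B n)) := fun n hn => B_mem hC hT n (by omega)
  exact ⟨fun n => F.va_elem hC hcox hcyc hB _ fun X _ => ⟨Set.univ, Set.subset_univ _,
    Or.inr (Or.inl ⟨n, Equiv.Set.univ _, fun _ _ => rfl⟩)⟩,
    fun V _ M h => F.va_elem hC hcox hcyc hB M h,
    fun V _ M hL => F.va_locred hC hcox M hL fun _ _ _ => hcyc 3 le_rfl⟩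

end Pool.Agent.Results.MP_2a547c_gt.VirtualArtinGroups
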